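import Pool.Agent.helper10.QT.SpecY

/-!
# Project AT, row GRA: symmetric sets with a small quotient among any four elements
-/

set_option autoImplicit false

namespace Pool.Agent.AT

open Finset Pool.Agent.helper85.FC

open scoped Pointwise

theorem GRA_four {G : Type} [CommGroup G] (T : Set G) (h1 : (1 : G) ∈ T)
    (hinv : ∀ x ∈ T, x⁻¹ ∈ T)
    (hT : ∀ x : Fin 4 → G, Function.Injective x → ∃ i j, i ≠ j ∧ x i / x j ∈ T)
    (p q r s : G) (h01 : q / p ∉ T) (h02 : r / p ∉ T) (h03 : s / p ∉ T) (h12 : r / q ∉ T)
    (h13 : s / q ∉ T) (h23 : s / r ∉ T) : False := by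
  have key : ∀ i j : Fin 4, i < j → (![p, q, r, s] : Fin 4 → G) j / (![p, q, r, s] : Fin 4 → G) i ∉ T := by
    intro i j hij
    fin_cases i <;> fin_cases j <;> first
      | exact absurd hij (by decide)
      | exact h01
      | exact h02
      | exact h03
      | exact h12
      | exact h13
      | exact h23
  have key2 : ∀ i j : Fin 4, i ≠ j →
      (![p, q, r, s] : Fin 4 → G) i / (![p, q, r, s] : Fin 4 → G) j ∉ T := by
    intro i j hij
    rcases lt_or_gt_of_ne hij with h | h
    · intro h'
      apply key i j h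
      have h2 := hinv _ h'
      rw [inv_div] at h2
      exact h2
    · exact key j i h
  obtain ⟨i, j, hij, h⟩ := hT ![p, q, r, s] (by
    intro i j hij
    by_contra hne
    apply key2 i j hne
    rw [hij, div_self']
    exact h1)
  exact key2 i j hij h

/-- `GRA` -/
theorem GRA : GRA_stmt := by
  intro G _ S m h1 hS h4
  have hmono : ∀ {a b : ℕ}, a ≤ b → S ^ a ⊆ S ^ b := fun hab => Set.pow_subset_pow_right h1 hab
  have hone : ∀ n : ℕ, (1 : G) ∈ S ^ n := by
    intro n
    exact hmono (Nat.zero_le n) (by rw [pow_zero]; exact Set.mem_one.mpr rfl)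
  have hinv : ∀ n : ℕ, ∀ x ∈ S ^ n, x⁻¹ ∈ S ^ n := by
    intro n
    induction n with
    | zero =>
      intro x hx
      rw [pow_zero, Set.mem_one] at hx ⊢
      rw [hx, inv_one]
    | succ n ih =>
      intro x hx
      rw [pow_succ, Set.mem_mul] at hx ⊢
      obtain ⟨a, ha, b, hb, rfl⟩ := hx
      exact ⟨a⁻¹, ih a ha, b⁻¹, hS b hb, (mul_inv a b).symm⟩
  have hmul : ∀ {a b : ℕ} {x y : G}, x ∈ S ^ a → y ∈ S ^ b → x * y ∈ S ^ (a + b) := by
    intro a b x y hx hy
    rw [pow_add]
    exact Set.mul_mem_mul hx hy
  -- step 1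
  have hstep : S ^ (2 * m + 2) ⊆ S ^ (2 * m + 1) := by
    intro g hg
    by_contra hcon
    have e1 : 2 * m + 2 = (m + 1) + (m + 1) := by ring
    rw [e1, pow_add, Set.mem_mul] at hg
    obtain ⟨a, ha, b, hb, hab⟩ := hg
    have ha' : a ∉ S ^ m := by
      intro h
      apply hcon
      have h2 := hmul h hb
      rw [hab] at h2
      have e2 : m + (m + 1) = 2 * m + 1 := by ring
      rwa [e2] at h2
    have hb' : b ∉ S ^ m := by
      intro h
      apply hcon
      have h2 := hmul ha h
      rw [hab] at h2
      have e2 : m + 1 + m = 2 * m + 1 := by ring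
      rwa [e2] at h2
    have hg' : g ∉ S ^ m := fun h => hcon (hmono (by omega) h)
    have hga : g * a ∉ S ^ m := by
      intro h
      apply hcon
      have h2 := hmul h (hinv _ a ha)
      rw [mul_inv_cancel_right] at h2
      have e2 : m + (m + 1) = 2 * m + 1 := by ring
      rwa [e2] at h2
    refine GRA_four (S ^ m) (hone m) (hinv m) h4 1 a g (g * a) ?_ ?_ ?_ ?_ ?_ ?_
    · rw [div_one]; exact ha'
    · rw [div_one]; exact hg'
    · rw [div_one]; exact hga
    · have e3 : g / a = b := by rw [← hab, mul_div_cancel_left]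
      rw [e3]; exact hb'
    · rw [mul_div_cancel_right]; exact hg'
    · rw [mul_div_cancel_left]; exact ha'
  -- step 2
  have hall : ∀ n : ℕ, S ^ n ⊆ S ^ (2 * m + 1) := by
    intro n
    induction n with
    | zero => exact hmono (Nat.zero_le _)
    | succ n ih =>
      intro x hx
      rw [pow_succ, Set.mem_mul] at hx
      obtain ⟨a, ha, b, hb, rfl⟩ := hx
      apply hstep
      have h2 : a * b ∈ S ^ (2 * m + 1 + 1) := by
        rw [pow_succ]
        exact Set.mul_mem_mul (ih ha) hb
      exact h2
  let H : Subgroup G :=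
    { carrier := S ^ (2 * m + 1)
      mul_mem' := fun hx hy => hall _ (hmul hx hy)
      one_mem' := hone _
      inv_mem' := fun hx => hinv _ _ hx }
  have hH : ∀ x, x ∈ H ↔ x ∈ S ^ (2 * m + 1) := fun x => Iff.rfl
  by_cases htop : H = ⊤
  · right
    intro g
    rw [← hH, htop]
    exact Subgroup.mem_top g
  · left
    have hSm : ∀ x ∈ S ^ m, x ∈ H := fun x hx => hall m hx
    obtain ⟨g, hg⟩ : ∃ g, g ∉ H := by
      by_contra h
      push Not at h
      exact htop ((Subgroup.eq_top_iff' H).mpr h)
    have hHS : ∀ x ∈ H, x ∈ S ^ m := by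
      intro x hx
      by_contra hxm
      have hn : ∀ y, y ∉ H → y ∉ S ^ m := fun y hy h => hy (hSm y h)
      refine GRA_four (S ^ m) (hone m) (hinv m) h4 1 x g (g * x) ?_ ?_ ?_ ?_ ?_ ?_
      · rw [div_one]; exact hxm
      · rw [div_one]; exact hn g hg
      · rw [div_one]
        exact hn _ (fun h => hg ((Subgroup.mul_mem_cancel_right H hx).mp h))
      · exact hn _ (fun h => hg (by
          have h2 := H.mul_mem h hx
          rwa [div_mul_cancel] at h2))
      · rw [mul_div_cancel_right]; exact hn g hg
      · rw [mul_div_cancel_left]; exact hxm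
    refine ⟨H, ?_, fun x hx => ?_, ?_⟩
    · by_contra hidx
      push Not at hidx
      have h1' : H.index ≠ 1 := fun h => htop (Subgroup.index_eq_one.mp h)
      obtain ⟨e, he⟩ : ∃ e : Fin 4 → G ⧸ H, Function.Injective e := by
        by_cases hfin : Finite (G ⧸ H)
        · have h0 : H.index ≠ 0 := by
            rw [Subgroup.index]
            exact Nat.card_pos.ne'
          have h4' : 4 ≤ Nat.card (G ⧸ H) := by
            have : H.index = Nat.card (G ⧸ H) := rfl
            omega
          exact ⟨fun i => (Finite.equivFin (G ⧸ H)).symm (Fin.castLE h4' i),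
            (Finite.equivFin (G ⧸ H)).symm.injective.comp (Fin.castLE_injective h4')⟩
        · have hinf : Infinite (G ⧸ H) := not_finite_iff_infinite.mp hfin
          exact ⟨fun i => Infinite.natEmbedding (G ⧸ H) i.val,
            (Infinite.natEmbedding (G ⧸ H)).injective.comp Fin.val_injective⟩
      have hout : ∀ i, ((e i).out : G ⧸ H) = e i := fun i => Quotient.out_eq' (e i)
      obtain ⟨i, j, hij, h⟩ := h4 (fun i => (e i).out) (by
        intro i j hij
        apply he
        rw [← hout i, ← hout j]
        exact congrArg _ hij)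
      apply hij
      apply he
      rw [← hout i, ← hout j]
      refine QuotientGroup.eq.mpr ?_
      have h2 := H.inv_mem (hSm _ h)
      rw [inv_div, div_eq_mul_inv, mul_comm] at h2
      exact h2
    · have h2 := hall 1
      rw [pow_one] at h2
      exact h2 hx
    · ext x
      exact ⟨fun hx => hHS x hx, fun hx => hSm x hx⟩

end Pool.Agent.AT
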